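import Pool.Agent.PSS.StmtsS3

/-!
# PSS, row IDN: a central element in a Brauer kernel is nilpotent
-/

open scoped BigOperators PowerSeries

noncomputable section

namespace Pool.Agent.PSS.S3.H13

open Pool.Agent.PSS Pool.Agent.PSS.S3

/-- Fitting's lemma for a central element -/
theorem fitting {F A : Type} [Field F] [Ring A] [Algebra F A] [FiniteDimensional F A] {z : A}
    (hz : ∀ a, z * a = a * z) :
    ∃ (n : ℕ) (c : A), (∀ a, c * a = a * c) ∧ z ^ (n + 1) = z ^ (n + 2) * c := by
  have hzc : z ∈ Subalgebra.center F A := by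
    rw [Subalgebra.mem_center_iff]
    intro b
    exact (hz b).symm
  have : FiniteDimensional F (Subalgebra.center F A) := inferInstance
  have hart : IsArtinianRing (Subalgebra.center F A) := isArtinian_of_tower F inferInstance
  obtain ⟨n, y, hy⟩ := IsArtinian.exists_pow_succ_smul_dvd
    (⟨z, hzc⟩ : Subalgebra.center F A) (1 : Subalgebra.center F A)
  have hy2 : z ^ (n + 1) * (y : A) = z ^ n := by
    have := congrArg (Subtype.val) hy
    simpa using this
  refine ⟨n, y, ?_, ?_⟩
  · intro a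
    exact ((Subalgebra.mem_center_iff.mp y.2) a).symm
  · have e1 : z ^ (n + 2) * (y : A) = z * (z ^ (n + 1) * (y : A)) := by
      rw [show n + 2 = (n + 1) + 1 by ring, pow_succ' z (n + 1), mul_assoc]
    rw [e1, hy2, ← pow_succ']

theorem idn (hBki : S0.BkiStmt) (hFco : S0.FcoStmt) (hFbk : S0.FbkStmt) : IdnStmt := by
  intro ℓ _ F V E A _ _ _ _ _ _ _ φ α P z hV hcl hz hzP
  have := hcl.fin
  obtain ⟨n, c, hc, hn⟩ := fitting (F := F) hz
  have hcomm : Commute z c := hz c
  -- `z ^ (n + 1) = z ^ (n + 1 + m) * c ^ m`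
  have h1 : ∀ m : ℕ, z ^ (n + 1) = z ^ (n + 1 + m) * c ^ m := by
    intro m
    induction m with
    | zero => rw [pow_zero, mul_one, add_zero]
    | succ m ih =>
      have e1 : z ^ (n + 1 + (m + 1)) * c ^ (m + 1) =
          z ^ m * (z ^ (n + 2) * c) * c ^ m := by
        rw [show n + 1 + (m + 1) = m + (n + 2) by ring, pow_add, pow_succ' c m]
        simp only [mul_assoc]
      rw [e1, ← hn, ← pow_add, show m + (n + 1) = n + 1 + m by ring]
      exact ih
  have h2 := h1 (n + 1)
  let e : A := z ^ (n + 1) * c ^ (n + 1)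
  have hze : z ^ (n + 1) = z ^ (n + 1) * e := by
    show z ^ (n + 1) = z ^ (n + 1) * (z ^ (n + 1) * c ^ (n + 1))
    rw [← mul_assoc, ← pow_add]
    exact h2
  have hpz : ∀ (k : ℕ) (a : A), z ^ k * a = a * z ^ k := by
    intro k a
    have : Commute z a := hz a
    exact this.pow_left k
  have hpc : ∀ (k : ℕ) (a : A), c ^ k * a = a * c ^ k := by
    intro k a
    have : Commute c a := hc a
    exact this.pow_left k
  have hee : e * e = e := by
    show z ^ (n + 1) * c ^ (n + 1) * e = z ^ (n + 1) * c ^ (n + 1)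
    rw [mul_assoc, hpc (n + 1) e, ← mul_assoc, ← hze]
  have hea : ∀ a, e * a = a * e := by
    intro a
    show z ^ (n + 1) * c ^ (n + 1) * a = a * (z ^ (n + 1) * c ^ (n + 1))
    rw [mul_assoc, hpc, ← mul_assoc, hpz, mul_assoc]
  -- `e` is in the Brauer kernel of `P`
  have hfix : ∀ (a : A), (∀ b, a * b = b * a) → ∀ Q : Subgroup V, a ∈ FxR (cw F α) Q := by
    intro a ha Q h _
    show (cw F α) h a = a
    have e1 : (cw F α) h a = α h * (a * α h⁻¹) := rfl
    rw [e1, ha, ← mul_assoc, ← map_mul, mul_inv_cancel, map_one, one_mul]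
  have heP : e ∈ BKR (cw F α) P := by
    have hw : ∀ b, z ^ n * c ^ (n + 1) * b = b * (z ^ n * c ^ (n + 1)) := by
      intro a
      rw [mul_assoc, hpc, ← mul_assoc, hpz, mul_assoc]
    have h3 := (hBki F V A α P (z ^ n * c ^ (n + 1)) (hfix _ hw P) z hzP).1
    have h4 : z ^ n * c ^ (n + 1) * z = e := by
      show z ^ n * c ^ (n + 1) * z = z ^ (n + 1) * c ^ (n + 1)
      rw [mul_assoc, hpc, ← mul_assoc, ← pow_succ]
    rw [h4] at h3
    exact h3
  -- `e` is in the Brauer kernel of `V`
  have heV : e ∈ BKR (cw F α) ⊤ := by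
    obtain ⟨Ω, _, _, b, cc, hfr, _⟩ := hcl.per
    let act : MulAction V Ω :=
      MulAction.compHom Ω ((MonoidHom.id V).prod (MonoidHom.id V))
    have hfr' : Pool.Agent.PFD.D2b.FrR (cw F α) b cc := by
      refine ⟨?_, ?_, hfr.2.2⟩
      · intro g t
        exact hfr.1 (g, g) t
      · intro g t n
        exact hfr.2.1 (g, g) t n
    have hl : ((ℓ : ℕ) : F) = 0 := CharP.cast_eq_zero F ℓ
    apply hFbk F V A Ω (cw F α) b cc hfr' ⊤ e (hfix e hea ⊤)
    intro ω hω
    exact hFco ℓ F V A Ω (cw F α) b cc hl hV hfr' P e heP ω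
      (fun h _ => hω h (Subgroup.mem_top h))
  -- `e = 0`
  have he0 : e = 0 := by
    have h3 := hcl.blk ⊥ e (hfix e hea ⊤) (by rw [hee, sub_self]; exact Submodule.zero_mem _)
      (by
        intro a _
        rw [hea, sub_self]
        exact Submodule.zero_mem _) heV
    have h4 : BKR (cw F α) (⊥ : Subgroup V) = ⊥ := by
      unfold BKR
      rw [Submodule.span_eq_bot]
      rintro x ⟨P', S, m, hlt, _⟩
      exact absurd hlt not_lt_bot
    rw [h4] at h3
    exact (Submodule.mem_bot F).mp h3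
  refine ⟨n + 1, ?_⟩
  rw [hze, he0, mul_zero]

end Pool.Agent.PSS.S3.H13
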