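import Pool.Agent.PSS.StmtsS5

/-!
# PSS, row LBR: local idempotents in the Brauer quotients
-/

open scoped BigOperators TensorProduct

noncomputable section

namespace Pool.Agent.PSS.S5.H13

open Pool.Agent.PSS Pool.Agent.PSS.S5
open Pool.Agent.PSS.S0 (IsBQ)

section fx

variable {F V A : Type} [Field F] [CommGroup V] [Ring A] [Algebra F A] {α : V →* A}

theorem mem_fx {P : Subgroup V} {a : A} :
    a ∈ FxR (cw F α) P ↔ ∀ h ∈ P, α h * a = a * α h := by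
  have key : ∀ h : V, (cw F α) h a = α h * (a * α h⁻¹) := fun h => rfl
  constructor
  · intro ha h hh
    have h1 : α h * (a * α h⁻¹) = a := (key h).symm.trans (ha h hh)
    calc α h * a = α h * (a * (α h⁻¹ * α h)) := by
          rw [← map_mul, inv_mul_cancel, map_one, mul_one]
      _ = α h * (a * α h⁻¹) * α h := by simp only [mul_assoc]
      _ = a * α h := by rw [h1]
  · intro ha h hh
    show (cw F α) h a = a
    rw [key, ← mul_assoc, ha h hh, mul_assoc, ← map_mul, mul_inv_cancel, map_one, mul_one]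

theorem fx_mul {P : Subgroup V} {a b : A} (ha : a ∈ FxR (cw F α) P) (hb : b ∈ FxR (cw F α) P) :
    a * b ∈ FxR (cw F α) P := by
  rw [mem_fx] at ha hb ⊢
  intro h hh
  rw [← mul_assoc, ha h hh, mul_assoc, hb h hh, mul_assoc]

theorem fx_one {P : Subgroup V} : (1 : A) ∈ FxR (cw F α) P := by
  rw [mem_fx]
  intro h _
  rw [mul_one, one_mul]

theorem fx_pow {P : Subgroup V} {a : A} (ha : a ∈ FxR (cw F α) P) (n : ℕ) :
    a ^ n ∈ FxR (cw F α) P := by
  induction n with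
  | zero =>
    rw [pow_zero]
    exact fx_one
  | succ n ih =>
    rw [pow_succ]
    exact fx_mul ih ha

end fx

/-- row LBR -/
theorem lbr (hLeq : LeqStmt) (hBbk : S0.BbkStmt) : LbrStmt := by
  intro ℓ _ F V E A B K _ _ _ _ _ _ _ _ _ _ φ α Q αB β lam x y hV hper hRF hBQ
  have hl : ((ℓ : ℕ) : F) = 0 := CharP.cast_eq_zero F ℓ
  obtain ⟨h1, h2⟩ := hBbk ℓ F V E A B K φ α Q αB β lam x y ⊤ hl hV hper hRF hBQ
  rw [top_sup_eq] at h1 h2
  have hCQ : ∀ a ∈ FxR (cw F α) ⊤, a ∈ FxR (cw F α) Q :=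
    fun a ha h _ => ha h (Subgroup.mem_top h)
  have hmul : ∀ a ∈ FxR (cw F α) ⊤, ∀ b ∈ FxR (cw F α) ⊤, β (a * b) = β a * β b :=
    fun a ha b hb => hBQ.mul a (hCQ a ha) b (hCQ b hb)
  have hpow : ∀ a ∈ FxR (cw F α) ⊤, ∀ n : ℕ, β (a ^ n) = β a ^ n := by
    intro a ha n
    induction n with
    | zero => rw [pow_zero, pow_zero, hBQ.one]
    | succ n ih => rw [pow_succ, pow_succ, hmul _ (fx_pow ha n) _ ha, ih]
  have hβ0 : β 0 = 0 := (hBQ.ker 0 (Submodule.zero_mem _)).mpr (Submodule.zero_mem _)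
  have hnil : ∀ a ∈ FxR (cw F α) ⊤, IsNilpotent a → IsNilpotent (β a) := by
    rintro a ha ⟨n, hn⟩
    refine ⟨n, ?_⟩
    rw [← hpow a ha, hn, hβ0]
  have hfirst : ∀ j, Loi F α j → Loi F αB (β j) := by
    intro j hj
    refine ⟨(h1 j hj.fx).1, ?_, ?_, ?_⟩
    · rw [← hmul j hj.fx j hj.fx, hj.id]
    · rw [(h1 j hj.fx).2]
      exact hj.nz
    · intro z hz
      obtain ⟨x₁, hx₁, rfl⟩ := h2 z hz
      have e1 : β j * β x₁ * β j = β (j * x₁ * j) := by
        rw [hmul _ (fx_mul hj.fx hx₁) _ hj.fx, hmul _ hj.fx _ hx₁]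
      rcases hj.loc x₁ hx₁ with h3 | ⟨y₁, hy₁, h3, h4⟩
      · left
        rw [e1]
        exact hnil _ (fx_mul (fx_mul hj.fx hx₁) hj.fx) h3
      · right
        have e2 : β j * β y₁ * β j = β (j * y₁ * j) := by
          rw [hmul _ (fx_mul hj.fx hy₁) _ hj.fx, hmul _ hj.fx _ hy₁]
        refine ⟨β y₁, (h1 y₁ hy₁).1, ?_, ?_⟩
        · rw [e1, e2, ← hmul _ (fx_mul (fx_mul hj.fx hx₁) hj.fx) _
            (fx_mul (fx_mul hj.fx hy₁) hj.fx), h3]
        · rw [e1, e2, ← hmul _ (fx_mul (fx_mul hj.fx hy₁) hj.fx) _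
            (fx_mul (fx_mul hj.fx hx₁) hj.fx), h4]
  refine ⟨hfirst, ?_⟩
  rintro j j' hj hj' ⟨p, hp, q, hq, e1, e2, e3, e4, e5, e6⟩
  obtain ⟨p₁, hp₁, rfl⟩ := h2 p hp
  obtain ⟨q₁, hq₁, rfl⟩ := h2 q hq
  rcases hLeq F V A α j j' hj hj' p₁ hp₁ q₁ hq₁ with h3 | h3
  · exfalso
    have hfx := fx_mul (fx_mul (fx_mul (fx_mul hj.fx hp₁) hj'.fx) hq₁) hj.fx
    have h4 := hnil _ hfx h3
    have h5 : β (j * p₁ * j' * q₁ * j) = β j := by
      rw [hmul _ (fx_mul (fx_mul (fx_mul hj.fx hp₁) hj'.fx) hq₁) _ hj.fx,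
        hmul _ (fx_mul (fx_mul hj.fx hp₁) hj'.fx) _ hq₁, hmul _ (fx_mul hj.fx hp₁) _ hj'.fx,
        hmul _ hj.fx _ hp₁, e1, e2, mul_assoc, e4, e5]
    rw [h5] at h4
    obtain ⟨n, hn⟩ := h4
    have hL := hfirst j hj
    have h6 : β j = 0 := by
      have h7 : ∀ k : ℕ, β j ^ (k + 1) = β j := by
        intro k
        induction k with
        | zero => rw [zero_add, pow_one]
        | succ k ih => rw [pow_succ, ih, hL.id]
      have h8 : β j ^ (n + 1) = 0 := by rw [pow_succ, hn, zero_mul]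
      rw [← h7 n, h8]
    apply hL.nz
    rw [h6]
    exact Submodule.zero_mem _
  · exact h3

end Pool.Agent.PSS.S5.H13
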